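import Mathlib

/-!
# Project TC: the system of Treibich's finite-gap potentials with three moving poles

Definitions and the statements of the independent parts (Mathlib only).
-/

set_option autoImplicit false

open Filter Topology

namespace Pool.Agent.W480.TC

/-- the `j`-invariant -/
noncomputable def jInv (L : PeriodPair) : ℂ := 1728 * L.g₂ ^ 3 / (L.g₂ ^ 3 - 27 * L.g₃ ^ 2)

/-! ### Facts on Weierstrass functions -/

/-! ### Local analysis -/

/-! ### The limit equation -/

/-! ### Jacobians -/

/-! ### The `j`-line -/

end Pool.Agent.W480.TC
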